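import Pool.Agent.Helper38.IA.StN

/-!
# Project IA, part N: `StNLB` (locality of the events for the degrees, first half)
-/

set_option autoImplicit false

namespace Pool.Agent.Helper73.IA38

open Finset Pool.Agent.Helper93.IA Pool.Agent.Helper17.IAN Pool.Agent.Helper38.IA

private lemma card_opt {γ : Type} (o : Option γ) : o.toFinset.card ≤ 2 := by
  cases o with
  | none => simp
  | some c => simp

private lemma two_set {I : Type} [DecidableEq I] (i0 : I) (Q : I → Prop)
    (hQ : ∀ i j, Q i → Q j → i = j) :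
    ∃ S : Finset I, S.card ≤ 2 ∧ i0 ∈ S ∧ ∀ i, Q i → i ∈ S := by
  by_cases h : ∃ i, Q i
  · obtain ⟨i1, h1⟩ := h
    refine ⟨{i0, i1}, Finset.card_le_two, by simp, fun i hi => ?_⟩
    rw [hQ i i1 hi h1]
    simp
  · refine ⟨{i0}, by simp, by simp, fun i hi => ?_⟩
    exact absurd ⟨i, hi⟩ h

private lemma nn {X Y : Prop} (h : ¬ ((¬ X) ↔ (¬ Y))) : ¬ (X ↔ Y) := fun h' => h (not_congr h')

theorem hNLB : StNCH → StNLB := by
  intro hN α β γ _ _ _ _ _ n hα hβ
  refine ⟨fun a => ?_, fun b => ?_, fun b => ?_⟩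
  · refine ⟨({a} : Finset α) ×ˢ (Finset.univ : Finset β), ?_, ?_⟩
    · rw [Finset.card_product, Finset.card_singleton, one_mul, Finset.card_univ, hβ]
      omega
    · rintro σ ⟨a0, b0⟩
      refine ⟨fun u => ?_, fun he => ?_⟩
      · obtain ⟨h1, -, -, h4, -, -, -⟩ := hN α β γ σ a0 b0 u
        obtain ⟨S, hS, hS0, hS1⟩ := two_set b0
          (fun b => used (Function.update σ (a0, b0) none) a0 b u) (fun b b' hb hb' => h4 b b' hb hb')
        refine ⟨S, hS, fun b hb => ?_⟩
        rcases h1 a b (nn hb) with ⟨-, h | h⟩ | ⟨h, -⟩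
        · rw [h]; exact hS0
        · exact hS1 b h
        · rw [h]; exact hS0
      · have ha : a ≠ a0 := by
          intro h
          apply he
          rw [Finset.mem_product]
          exact ⟨by simp [h], Finset.mem_univ _⟩
        refine ⟨(σ (a, b0)).toFinset, card_opt _, fun u b hb => ?_⟩
        obtain ⟨h1, -, -, -, -, -, h7⟩ := hN α β γ σ a0 b0 u
        rcases h1 a b (nn hb) with ⟨h, -⟩ | ⟨-, h⟩
        · exact absurd h ha
        · rw [(h7 a h).2]
          simp
  · refine ⟨(Finset.univ : Finset α) ×ˢ ({b} : Finset β), ?_, ?_⟩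
    · rw [Finset.card_product, Finset.card_singleton, mul_one, Finset.card_univ, hα]
      omega
    · rintro σ ⟨a0, b0⟩
      refine ⟨fun u => ?_, fun he => ?_⟩
      · obtain ⟨h1, -, -, -, h5, -, -⟩ := hN α β γ σ a0 b0 u
        obtain ⟨S, hS, hS0, hS1⟩ := two_set a0
          (fun a => used (Function.update σ (a0, b0) none) a b0 u) (fun a a' ha ha' => h5 a a' ha ha')
        refine ⟨S, hS, fun a ha => ?_⟩
        rcases h1 a b (nn ha) with ⟨h, -⟩ | ⟨-, h⟩
        · rw [h]; exact hS0
        · exact hS1 a h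
      · have hb : b ≠ b0 := by
          intro h
          apply he
          rw [Finset.mem_product]
          exact ⟨Finset.mem_univ _, by simp [h]⟩
        refine ⟨(σ (a0, b)).toFinset, card_opt _, fun u a ha => ?_⟩
        obtain ⟨h1, -, -, -, -, h6, -⟩ := hN α β γ σ a0 b0 u
        rcases h1 a b (nn ha) with ⟨-, h | h⟩ | ⟨h, -⟩
        · exact absurd h hb
        · rw [(h6 b h).2]
          simp
        · exact absurd h hb
  · refine ⟨(Finset.univ : Finset α) ×ˢ ({b} : Finset β), ?_, ?_⟩
    · rw [Finset.card_product, Finset.card_singleton, mul_one, Finset.card_univ, hα]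
      omega
    · rintro σ ⟨a0, b0⟩
      refine ⟨fun u => ?_, fun he => ?_⟩
      · obtain ⟨-, h2, -, -, -, -, -⟩ := hN α β γ σ a0 b0 u
        refine ⟨{u}, by simp, fun c hc => ?_⟩
        rw [(h2 b c (nn hc)).1]
        simp
      · have hb : b ≠ b0 := by
          intro h
          apply he
          rw [Finset.mem_product]
          exact ⟨Finset.mem_univ _, by simp [h]⟩
        refine ⟨(σ (a0, b)).toFinset, card_opt _, fun u c hc => ?_⟩
        obtain ⟨-, h2, -, -, -, h6, -⟩ := hN α β γ σ a0 b0 u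
        rcases (h2 b c (nn hc)).2 with h | h
        · exact absurd h hb
        · rw [(h6 b h).2]
          simp

end Pool.Agent.Helper73.IA38
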